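import Mathlib

namespace Pool.Agent.Lib.MP_6460d9_an

open Filter Topology

variable {M : Type*} [MetricSpace M]

/-- `N` pairwise disjoint annuli of ratio `R`. -/
def HasAnnuli (M : Type*) [MetricSpace M] (R : ℝ) (N : ℕ) : Prop :=
  ∃ c u : ℕ → M, (∀ k, k < N → u k ≠ c k) ∧ ∀ k l, k < l → l < N → ∀ x,
    (dist x (c k) ≤ dist (u k) (c k) / R ∨ R * dist (u k) (c k) ≤ dist x (c k)) ∨
    (dist x (c l) ≤ dist (u l) (c l) / R ∨ R * dist (u l) (c l) ≤ dist x (c l))

theorem hasAnnuli_of_unbounded {R : ℝ} (hR : 1 ≤ R) (N : ℕ)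
    (h : ¬ Bornology.IsBounded (Set.univ : Set M)) : HasAnnuli M R N := by
  have hR0 : 0 < R := by linarith
  rcases isEmpty_or_nonempty M with hM | ⟨⟨p⟩⟩
  · exact absurd (Set.toFinite _).isBounded h
  have h1 : ∀ η : ℝ, ∃ w : M, η < dist w p := by
    intro η
    by_contra hc
    push Not at hc
    exact h ((Metric.isBounded_iff_subset_closedBall p).2 ⟨η, fun w _ => hc w⟩)
  obtain ⟨u, hu, hu2⟩ := exists_seq_of_forall_finset_exists (fun w : M => w ≠ p)
    (fun x y => R ^ 2 * dist x p ≤ dist y p) (by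
      intro s _
      obtain ⟨w, hw⟩ := h1 (∑ x ∈ s, R ^ 2 * dist x p)
      have h0 : 0 ≤ ∑ x ∈ s, R ^ 2 * dist x p := Finset.sum_nonneg (fun x _ => by positivity)
      refine ⟨w, dist_pos.1 (lt_of_le_of_lt h0 hw), fun x hx => le_trans ?_ hw.le⟩
      exact Finset.single_le_sum (f := fun x => R ^ 2 * dist x p) (fun x _ => by positivity) hx)
  refine ⟨fun _ => p, u, fun k _ => hu k, fun k l hkl _ x => ?_⟩
  have h2 := hu2 k l hkl
  by_cases h3 : R * dist (u k) p ≤ dist x p
  · exact Or.inl (Or.inr h3)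
  · refine Or.inr (Or.inl ?_)
    rw [le_div_iff₀ hR0]
    nlinarith

theorem hasAnnuli_of_cluster {R : ℝ} (hR : 1 ≤ R) (N : ℕ) (D : M → ℝ)
    (hD1 : ∀ x y, D x - D y ≤ dist x y) (hD2 : ∀ x y, dist x y ≤ D x + D y)
    (h : ∀ η : ℝ, 0 < η → ∃ w, 0 < D w ∧ D w < η) : HasAnnuli M R N := by
  have hR0 : 0 < R := by linarith
  have hR2 : 1 ≤ R ^ 2 := by nlinarith
  obtain ⟨u, hu, hu2⟩ := exists_seq_of_forall_finset_exists (fun w : M => 0 < D w)
    (fun x y => 4 * R ^ 2 * D y ≤ D x) (by
      intro s hs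
      rcases s.eq_empty_or_nonempty with rfl | hne
      · obtain ⟨w, hw, -⟩ := h 1 one_pos
        exact ⟨w, hw, by simp⟩
      obtain ⟨x0, hx0, hmin⟩ := s.exists_min_image D hne
      obtain ⟨w, hw, hw2⟩ := h (D x0 / (4 * R ^ 2)) (by have := hs x0 hx0; positivity)
      refine ⟨w, hw, fun x hx => le_trans ?_ (hmin x hx)⟩
      rw [lt_div_iff₀ (by positivity)] at hw2
      linarith)
  have h3 : ∀ k, k < N → D (u k) / 2 ≤ dist (u k) (u N) ∧ dist (u k) (u N) ≤ 2 * D (u k) := by
    intro k hk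
    have h4 := hu2 k N hk
    have h5 := hu N
    have h6 := hD1 (u k) (u N)
    have h7 := hD2 (u k) (u N)
    constructor <;> nlinarith
  refine ⟨fun _ => u N, u, fun k hk => ?_, fun k l hkl hl x => ?_⟩
  · have := (h3 k hk).1
    have h5 := hu k
    exact dist_pos.1 (by linarith)
  · have h4 := hu2 k l hkl
    have h5 := (h3 k (hkl.trans hl)).1
    have h6 := (h3 l hl).2
    by_cases h7 : R * dist (u l) (u N) ≤ dist x (u N)
    · exact Or.inr (Or.inr h7)
    · refine Or.inl (Or.inl ?_)
      rw [le_div_iff₀ hR0]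
      have h8 : dist x (u N) * R ≤ R * dist (u l) (u N) * R :=
        mul_le_mul_of_nonneg_right (not_le.1 h7).le hR0.le
      have h9 : R ^ 2 * dist (u l) (u N) ≤ R ^ 2 * (2 * D (u l)) :=
        mul_le_mul_of_nonneg_left h6 (by positivity)
      nlinarith

theorem hasAnnuli_of_small {R : ℝ} (hR : 1 ≤ R) (N : ℕ)
    (h : ∀ η : ℝ, 0 < η → ∃ x y : M, x ≠ y ∧ dist x y < η) : HasAnnuli M R N := by
  have hR0 : 0 < R := by linarith
  choose u c huc hd using fun j : ℕ => h (1 / ((j : ℝ) + 1)) Nat.one_div_pos_of_nat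
  have hten : Tendsto (fun j => dist (u j) (c j)) atTop (𝓝 0) :=
    squeeze_zero (fun _ => dist_nonneg) (fun j => (hd j).le)
      tendsto_one_div_add_atTop_nhds_zero_nat
  set U := Filter.hyperfilter ℕ with hU
  have hUle : (U : Filter ℕ) ≤ atTop := Nat.hyperfilter_le_atTop
  have hsmall : ∀ η : ℝ, 0 < η → ∀ᶠ j in (U : Filter ℕ), dist (u j) (c j) < η := fun η hη =>
    hUle (hten.eventually (gt_mem_nhds hη))
  by_cases hA : ∀ δ : ℝ, 0 < δ → ∃ s : M, ∀ᶠ j in (U : Filter ℕ), dist (c j) s < δ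
  · have hC : Cauchy (map (fun j => (c j : UniformSpace.Completion M)) (U : Filter ℕ)) := by
      rw [Metric.cauchy_iff]
      refine ⟨inferInstance, fun ε hε => ?_⟩
      obtain ⟨s, hs⟩ := hA (ε / 2) (by positivity)
      refine ⟨Metric.ball (s : UniformSpace.Completion M) (ε / 2), ?_, ?_⟩
      · refine mem_map.2 ?_
        filter_upwards [hs] with j hj
        simpa [Metric.mem_ball, UniformSpace.Completion.dist_eq] using hj
      · intro x hx y hy
        have := dist_triangle_right x y (s : UniformSpace.Completion M)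
        rw [Metric.mem_ball] at hx hy
        linarith
    obtain ⟨q, hq⟩ := CompleteSpace.complete hC
    have hq' : Tendsto (fun j => (c j : UniformSpace.Completion M)) (U : Filter ℕ) (𝓝 q) := hq
    refine hasAnnuli_of_cluster hR N (fun x => dist (x : UniformSpace.Completion M) q) ?_ ?_ ?_
    · intro x y
      have := dist_triangle (x : UniformSpace.Completion M) y q
      rw [UniformSpace.Completion.dist_eq] at this
      linarith
    · intro x y
      have := dist_triangle_right (x : UniformSpace.Completion M) y q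
      rwa [UniformSpace.Completion.dist_eq] at this
    · intro η hη
      have h1 := (Metric.tendsto_nhds.1 hq') (η / 2) (by positivity)
      obtain ⟨j, hj1, hj2⟩ := (h1.and (hsmall (η / 2) (by positivity))).exists
      have h2 := dist_triangle (u j : UniformSpace.Completion M) (c j) q
      have h3 := dist_triangle_right (u j : UniformSpace.Completion M) (c j) q
      rw [UniformSpace.Completion.dist_eq] at h2 h3
      have h4 : 0 < dist (u j) (c j) := dist_pos.2 (huc j)
      by_cases h5 : 0 < dist (c j : UniformSpace.Completion M) q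
      · exact ⟨c j, h5, by linarith⟩
      · exact ⟨u j, by linarith, by linarith⟩
  · push Not at hA
    obtain ⟨δ, hδ, hA⟩ := hA
    have hB : ∀ s : M, ∀ᶠ j in (U : Filter ℕ), δ ≤ dist (c j) s := hA
    obtain ⟨j, hj, hj2⟩ := exists_seq_of_forall_finset_exists
      (fun j : ℕ => dist (u j) (c j) < δ / (2 * R)) (fun i j => δ ≤ dist (c j) (c i)) (by
        intro s _
        have h1 : ∀ᶠ j in (U : Filter ℕ), ∀ i ∈ s, δ ≤ dist (c j) (c i) :=
          (eventually_all_finset s).2 (fun i _ => hB (c i))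
        exact ((hsmall _ (by positivity)).and h1).exists)
    refine ⟨fun k => c (j k), fun k => u (j k), fun k _ => huc _, fun k l hkl _ x => ?_⟩
    have h1 := hj k
    have h2 := hj l
    have h3 := hj2 k l hkl
    rw [lt_div_iff₀ (by positivity)] at h1 h2
    have h4 := dist_triangle_left (c (j l)) (c (j k)) x
    by_cases h5 : R * dist (u (j k)) (c (j k)) ≤ dist x (c (j k))
    · exact Or.inl (Or.inr h5)
    · exact Or.inr (Or.inr (by nlinarith))

end Pool.Agent.Lib.MP_6460d9_an
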