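import Mathlib

namespace Pool.Agent.Lib.MP_6460d9_an

variable {M : Type*} [MetricSpace M]

/-- Lipschitz maps `M → Y` vanishing at the base point `p`. -/
def lipSub (p : M) (Y : Type*) [NormedAddCommGroup Y] [NormedSpace ℝ Y] :
    Submodule ℝ (M → Y) where
  carrier := {f | f p = 0 ∧ ∃ K, LipschitzWith K f}
  add_mem' := by
    rintro f g ⟨hf, K, hK⟩ ⟨hg, L, hL⟩
    exact ⟨by simp [hf, hg], K + L, hK.add hL⟩
  zero_mem' := ⟨rfl, 0, LipschitzWith.const' 0⟩
  smul_mem' := by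
    rintro c f ⟨hf, K, hK⟩
    exact ⟨by simp [hf], ‖c‖₊ * K, (lipschitzWith_smul c).comp hK⟩

/-- The space `Lip(M, Y)`. -/
def Lip0 (p : M) (Y : Type*) [NormedAddCommGroup Y] [NormedSpace ℝ Y] : Type _ :=
  lipSub p Y

variable {p : M} {Y : Type*} [NormedAddCommGroup Y] [NormedSpace ℝ Y]

instance : AddCommGroup (Lip0 p Y) := Submodule.addCommGroup (lipSub p Y)

instance : Module ℝ (Lip0 p Y) := Submodule.module (lipSub p Y)

/-- The best Lipschitz constant. -/
noncomputable def lipNorm (f : M → Y) : ℝ :=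
  sSup {r : ℝ | ∃ x y : M, x ≠ y ∧ r = ‖f x - f y‖ / dist x y}

omit [NormedSpace ℝ Y] in
theorem lipNorm_le {f : M → Y} {K : ℝ} (hK : 0 ≤ K)
    (h : ∀ x y, ‖f x - f y‖ ≤ K * dist x y) : lipNorm f ≤ K := by
  refine Real.sSup_le ?_ hK
  rintro r ⟨x, y, hxy, rfl⟩
  exact (div_le_iff₀ (dist_pos.2 hxy)).2 (h x y)

theorem le_lipNorm (f : lipSub p Y) (x y : M) :
    ‖f.1 x - f.1 y‖ ≤ lipNorm f.1 * dist x y := by
  obtain ⟨_, K, hK⟩ := f.2
  rcases eq_or_ne x y with rfl | hxy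
  · simp
  refine (div_le_iff₀ (dist_pos.2 hxy)).1 (le_csSup ⟨K, ?_⟩ ⟨x, y, hxy, rfl⟩)
  rintro r ⟨a, b, hab, rfl⟩
  exact (div_le_iff₀ (dist_pos.2 hab)).2 (by simpa [dist_eq_norm] using hK.dist_le_mul a b)

omit [NormedSpace ℝ Y] in
theorem lipNorm_nonneg (f : M → Y) : 0 ≤ lipNorm f :=
  Real.sSup_nonneg (by rintro r ⟨x, y, _, rfl⟩; positivity)

noncomputable instance : NormedAddCommGroup (Lip0 p Y) :=
  AddGroupNorm.toNormedAddCommGroup
    { toFun := fun f => lipNorm f.1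
      map_zero' := le_antisymm (lipNorm_le le_rfl (fun x y => by
        change ‖(0 : Y) - 0‖ ≤ _
        simp)) (lipNorm_nonneg _)
      add_le' := fun f g => lipNorm_le (add_nonneg (lipNorm_nonneg _) (lipNorm_nonneg _))
        (fun x y => by
          have h1 := le_lipNorm f x y
          have h2 := le_lipNorm g x y
          have h3 := norm_add_le (f.1 x - f.1 y) (g.1 x - g.1 y)
          change ‖(f.1 x + g.1 x) - (f.1 y + g.1 y)‖ ≤ _
          rw [add_sub_add_comm]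
          linarith)
      neg' := fun f => by
        change lipNorm (fun x => -f.1 x) = lipNorm f.1
        simp only [lipNorm, neg_sub_neg, norm_sub_rev]
      eq_zero_of_map_eq_zero' := fun f hf => Subtype.ext (funext fun x => by
        have h := le_lipNorm f x p
        rw [hf, f.2.1] at h
        change f.1 x = 0
        simpa using h) }

noncomputable instance : NormedSpace ℝ (Lip0 p Y) where
  norm_smul_le c f := lipNorm_le (mul_nonneg (norm_nonneg c) (lipNorm_nonneg _)) (fun x y => by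
    change ‖c • f.1 x - c • f.1 y‖ ≤ ‖c‖ * lipNorm f.1 * _
    rw [← smul_sub, norm_smul, mul_assoc]
    exact mul_le_mul_of_nonneg_left (le_lipNorm f x y) (norm_nonneg c))

/-- The slice `S(B_Z, φ, α)` of the closed unit ball of `Z`. -/
def slice {Z : Type*} [NormedAddCommGroup Z] [NormedSpace ℝ Z] (φ : StrongDual ℝ Z) (α : ℝ) :
    Set Z :=
  {z | ‖z‖ ≤ 1 ∧ 1 - α < φ z}

/-- The strong diameter two property. -/
def SD2P (Z : Type*) [NormedAddCommGroup Z] [NormedSpace ℝ Z] : Prop :=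
  ∀ (n : ℕ) (lam : Fin n → ℝ) (φ : Fin n → StrongDual ℝ Z) (α : Fin n → ℝ),
    (∀ i, 0 < lam i) → ∑ i, lam i = 1 → (∀ i, ‖φ i‖ = 1) → (∀ i, 0 < α i) →
    Metric.diam {z : Z | ∃ s : Fin n → Z, (∀ i, s i ∈ slice (φ i) (α i)) ∧
      z = ∑ i, lam i • s i} = 2

end Pool.Agent.Lib.MP_6460d9_an
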