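import Mathlib

namespace Pool.Agent.Lib.MP_6460d9_an

theorem clamp_lip (a b : ℝ) : |max 0 (min 1 a) - max 0 (min 1 b)| ≤ |a - b| := by
  have h1 : |max 0 (min 1 a) - max 0 (min 1 b)| ≤ |min 1 a - min 1 b| := by
    rw [max_comm 0, max_comm 0]
    exact abs_max_sub_max_le_abs _ _ _
  have h2 : |min 1 a - min 1 b| ≤ |a - b| := by
    have := abs_min_sub_min_le_max (1 : ℝ) a 1 b
    simpa using this
  exact h1.trans h2

theorem exists_cutoff {ε S : ℝ} (hε : 0 < ε) (hS : 1 ≤ S) :
    ∃ R : ℝ, S ≤ R ∧ ∀ r : ℝ, 0 < r → ∃ χ : ℝ → ℝ, (∀ t, 0 ≤ χ t ∧ χ t ≤ 1) ∧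
      (∀ t, (t ≤ r / R ∨ R * r ≤ t) → χ t = 0) ∧
      (∀ t, r / S ≤ t → t ≤ S * r → χ t = 1) ∧
      (∀ s t, 0 ≤ t → t ≤ s → t * |χ s - χ t| ≤ ε * (s - t)) := by
  have hS0 : 0 < S := by linarith
  have hexp : 1 ≤ Real.exp (1 / ε) := Real.one_le_exp (by positivity)
  set R := S * Real.exp (1 / ε) with hR
  have hSR : S ≤ R := by nlinarith
  have hR1 : 1 ≤ R := hS.trans hSR
  have hR0 : 0 < R := by linarith
  have hlogR : Real.log R = Real.log S + 1 / ε := by
    rw [hR, Real.log_mul hS0.ne' (Real.exp_pos _).ne', Real.log_exp]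
  have hlogR0 : 0 ≤ Real.log R := Real.log_nonneg hR1
  refine ⟨R, hSR, fun r hr => ?_⟩
  have ha : 0 < r / R := by positivity
  refine ⟨fun t => max 0 (min 1 (ε * (Real.log R - |Real.log (max t (r / R)) - Real.log r|))),
    fun t => ⟨le_max_left _ _, max_le zero_le_one (min_le_left _ _)⟩, ?_, ?_, ?_⟩
  · rintro t (ht | ht)
    · have : max t (r / R) = r / R := max_eq_right ht
      simp only [this]
      rw [Real.log_div hr.ne' hR0.ne']
      have : |Real.log r - Real.log R - Real.log r| = Real.log R := by
        rw [show Real.log r - Real.log R - Real.log r = -Real.log R by ring, abs_neg,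
          abs_of_nonneg hlogR0]
      rw [this]
      simp
    · apply max_eq_left
      refine (min_le_right _ _).trans ?_
      have h1 : R * r ≤ max t (r / R) := ht.trans (le_max_left _ _)
      have h2 : Real.log (R * r) ≤ Real.log (max t (r / R)) :=
        Real.log_le_log (by positivity) h1
      rw [Real.log_mul hR0.ne' hr.ne'] at h2
      have h3 := le_abs_self (Real.log (max t (r / R)) - Real.log r)
      have : Real.log R - |Real.log (max t (r / R)) - Real.log r| ≤ 0 := by linarith
      exact mul_nonpos_of_nonneg_of_nonpos hε.le this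
  · intro t h1 h2
    have h3 : r / R ≤ r / S := div_le_div_of_nonneg_left hr.le hS0 hSR
    have ht0 : 0 < t := lt_of_lt_of_le (by positivity) h1
    have : max t (r / R) = t := max_eq_left (h3.trans h1)
    simp only [this]
    have h4 : Real.log (r / S) ≤ Real.log t := Real.log_le_log (by positivity) h1
    have h5 : Real.log t ≤ Real.log (S * r) := Real.log_le_log ht0 h2
    rw [Real.log_div hr.ne' hS0.ne'] at h4
    rw [Real.log_mul hS0.ne' hr.ne'] at h5
    have h6 : |Real.log t - Real.log r| ≤ Real.log S := abs_le.2 ⟨by linarith, by linarith⟩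
    have h7 : 1 ≤ ε * (Real.log R - |Real.log t - Real.log r|) := by
      have : 1 / ε ≤ Real.log R - |Real.log t - Real.log r| := by linarith
      calc (1 : ℝ) = ε * (1 / ε) := by field_simp
        _ ≤ _ := mul_le_mul_of_nonneg_left this hε.le
    rw [min_eq_left h7]
    simp
  · intro s t ht hts
    set a := max t (r / R) with ha'
    set b := max s (r / R) with hb'
    have ha0 : 0 < a := lt_of_lt_of_le ha (le_max_right _ _)
    have hab : a ≤ b := max_le_max_right _ hts
    have hb0 : 0 < b := lt_of_lt_of_le ha0 hab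
    have hba : b - a ≤ s - t := by
      have := abs_max_sub_max_le_abs s t (r / R)
      rw [abs_of_nonneg (sub_nonneg.2 hts)] at this
      exact (le_abs_self _).trans this
    have hta : t ≤ a := le_max_left _ _
    have hlog0 : 0 ≤ Real.log b - Real.log a := sub_nonneg.2 (Real.log_le_log ha0 hab)
    have hlog1 : a * (Real.log b - Real.log a) ≤ b - a := by
      rw [← Real.log_div hb0.ne' ha0.ne']
      have := Real.log_le_sub_one_of_pos (div_pos hb0 ha0)
      calc a * Real.log (b / a) ≤ a * (b / a - 1) := mul_le_mul_of_nonneg_left this ha0.le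
        _ = b - a := by field_simp
    have h1 := clamp_lip (ε * (Real.log R - |Real.log b - Real.log r|))
      (ε * (Real.log R - |Real.log a - Real.log r|))
    have h2 : |ε * (Real.log R - |Real.log b - Real.log r|) -
        ε * (Real.log R - |Real.log a - Real.log r|)| ≤ ε * (Real.log b - Real.log a) := by
      rw [← mul_sub, abs_mul, abs_of_pos hε]
      refine mul_le_mul_of_nonneg_left ?_ hε.le
      have h3 := abs_abs_sub_abs_le_abs_sub (Real.log a - Real.log r) (Real.log b - Real.log r)
      rw [show Real.log a - Real.log r - (Real.log b - Real.log r) =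
        -(Real.log b - Real.log a) by ring, abs_neg, abs_of_nonneg hlog0] at h3
      rw [show Real.log R - |Real.log b - Real.log r| - (Real.log R - |Real.log a - Real.log r|) =
        |Real.log a - Real.log r| - |Real.log b - Real.log r| by ring]
      exact h3
    calc t * |max 0 (min 1 (ε * (Real.log R - |Real.log b - Real.log r|))) -
          max 0 (min 1 (ε * (Real.log R - |Real.log a - Real.log r|)))|
        ≤ a * (ε * (Real.log b - Real.log a)) :=
          mul_le_mul hta (h1.trans h2) (abs_nonneg _) ha0.le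
      _ = ε * (a * (Real.log b - Real.log a)) := by ring
      _ ≤ ε * (s - t) := mul_le_mul_of_nonneg_left (hlog1.trans hba) hε.le

theorem exists_perturb {M Y : Type*} [MetricSpace M] [NormedAddCommGroup Y] [NormedSpace ℝ Y]
    {ε : ℝ} (hε : 0 < ε) (hε1 : ε ≤ 1) :
    ∃ R : ℝ, 1 ≤ R ∧ ∀ (c u : M), u ≠ c → ∀ e : Y, ‖e‖ ≤ 1 → ∀ f : M → Y,
      (∀ x y, ‖f x - f y‖ ≤ dist x y) →
      ∃ P : M → Y, (∀ x, (dist x c ≤ dist u c / R ∨ R * dist u c ≤ dist x c) → P x = 0) ∧
        (∀ x y, ‖(f x + P x) - (f y + P y)‖ ≤ (1 + 2 * ε) * dist x y) ∧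
        (f u + P u) - (f c + P c) = ((1 - ε) * dist u c) • e := by
  have hε2 : ε ^ 2 ≤ 1 := by nlinarith
  have hS4 : 4 ≤ 4 / ε ^ 2 := by
    rw [le_div_iff₀ (by positivity)]
    nlinarith
  obtain ⟨R, hSR, hR⟩ := exists_cutoff (S := 4 / ε ^ 2) hε (by linarith)
  set S := 4 / ε ^ 2 with hSdef
  have hSε : S * ε ^ 2 = 4 := by rw [hSdef]; field_simp
  have hS0 : 0 < S := by linarith
  have hR0 : 0 < R := by linarith
  refine ⟨R, by linarith, fun c u hcu e he f hf => ?_⟩
  set r := dist u c with hr
  have hr0 : 0 < r := dist_pos.2 hcu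
  obtain ⟨χ, hχ01, hχ0, hχ1, hχL⟩ := hR r hr0
  set θ : ℝ → ℝ := fun t => max 0 ((1 - ε) * r - |t - r|) with hθ
  have hθL : ∀ s t, |θ s - θ t| ≤ |s - t| := by
    intro s t
    simp only [hθ]
    rw [max_comm 0, max_comm 0]
    refine (abs_max_sub_max_le_abs _ _ _).trans ?_
    have := abs_abs_sub_abs_le_abs_sub (t - r) (s - r)
    rw [show t - r - (s - r) = -(s - t) by ring, abs_neg] at this
    rw [show (1 - ε) * r - |s - r| - ((1 - ε) * r - |t - r|) = |t - r| - |s - r| by ring]
    exact this
  have hθ0 : ∀ t, 0 ≤ θ t := fun t => le_max_left _ _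
  have hθr : ∀ t, θ t ≤ r := by
    intro t
    refine max_le hr0.le ?_
    have := abs_nonneg (t - r)
    nlinarith
  have hθz : ∀ t, (t ≤ ε * r ∨ 2 * r ≤ t) → θ t = 0 := by
    rintro t (ht | ht)
    · apply max_eq_left
      have := neg_abs_le (t - r)
      nlinarith
    · apply max_eq_left
      have := le_abs_self (t - r)
      nlinarith
  set a := r / S with ha
  have haS : a * S = r := by rw [ha]; field_simp
  have ha0 : 0 < a := by positivity
  have ha4 : 4 * a = ε ^ 2 * r := by
    rw [← haS, ← hSε]; ring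
  have haε : a ≤ ε * r := by nlinarith
  set G : M → Y := fun x => (1 - χ (dist x c)) • (f x - f c) with hG
  set H : M → Y := fun x => θ (dist x c) • e with hH
  have hGn : ∀ x, ‖G x‖ ≤ dist x c := by
    intro x
    simp only [hG]
    rw [norm_smul, Real.norm_eq_abs, abs_of_nonneg (sub_nonneg.2 (hχ01 _).2)]
    have h1 := hf x c
    have h2 := (hχ01 (dist x c)).1
    have h3 := norm_nonneg (f x - f c)
    nlinarith
  have hGL' : ∀ x y, dist y c ≤ dist x c → ‖G x - G y‖ ≤ (1 + ε) * dist x y := by
    intro x y hxy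
    have h1 : G x - G y = (1 - χ (dist x c)) • (f x - f y) +
        (χ (dist y c) - χ (dist x c)) • (f y - f c) := by
      simp only [hG]
      module
    rw [h1]
    refine (norm_add_le _ _).trans ?_
    rw [norm_smul, norm_smul, Real.norm_eq_abs, Real.norm_eq_abs,
      abs_of_nonneg (sub_nonneg.2 (hχ01 _).2), abs_sub_comm]
    have h2 := hχL (dist x c) (dist y c) dist_nonneg hxy
    have h3 : dist x c - dist y c ≤ dist x y := by
      have := dist_triangle x y c
      linarith
    have h4 : (1 - χ (dist x c)) * ‖f x - f y‖ ≤ dist x y := by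
      have h5 := hf x y
      have h6 := (hχ01 (dist x c)).1
      have h7 := norm_nonneg (f x - f y)
      nlinarith
    have h5 : |χ (dist x c) - χ (dist y c)| * ‖f y - f c‖ ≤
        |χ (dist x c) - χ (dist y c)| * dist y c :=
      mul_le_mul_of_nonneg_left (hf y c) (abs_nonneg _)
    nlinarith
  have hGL : ∀ x y, ‖G x - G y‖ ≤ (1 + ε) * dist x y := by
    intro x y
    rcases le_total (dist y c) (dist x c) with h | h
    · exact hGL' x y h
    · rw [norm_sub_rev, dist_comm]
      exact hGL' y x h
  have hGz : ∀ x, a ≤ dist x c → dist x c ≤ S * r → G x = 0 := by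
    intro x h1 h2
    simp only [hG]
    rw [hχ1 _ h1 h2]
    simp
  have hHL : ∀ x y, ‖H x - H y‖ ≤ dist x y := by
    intro x y
    simp only [hH]
    rw [← sub_smul, norm_smul, Real.norm_eq_abs]
    have h1 := hθL (dist x c) (dist y c)
    have h2 := abs_dist_sub_le x y c
    have h3 := abs_nonneg (θ (dist x c) - θ (dist y c))
    nlinarith
  have hHn : ∀ x, ‖H x‖ ≤ r := by
    intro x
    simp only [hH]
    rw [norm_smul, Real.norm_eq_abs, abs_of_nonneg (hθ0 _)]
    have h1 := hθr (dist x c)
    have h2 := hθ0 (dist x c)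
    nlinarith
  have hHz : ∀ x, (dist x c ≤ ε * r ∨ 2 * r ≤ dist x c) → H x = 0 := by
    intro x hx
    simp only [hH]
    rw [hθz _ hx, zero_smul]
  have key : ∀ x y, ε * r < dist x c → dist x c < 2 * r →
      ‖(G x + H x) - (G y + H y)‖ ≤ (1 + 2 * ε) * dist x y := by
    intro x y h1 h2
    have hd := dist_nonneg (x := x) (y := y)
    have hGx : G x = 0 := hGz x (by linarith) (by nlinarith)
    by_cases h3 : dist y c < a
    · have h4 : ε * r - a ≤ dist x y := by
        have := dist_triangle x y c
        linarith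
      have h5 : (G x + H x) - (G y + H y) = (H x - H y) - G y := by
        rw [hGx]; abel
      rw [h5]
      have h6 := norm_sub_le (H x - H y) (G y)
      have h7 := hHL x y
      have h8 := hGn y
      have h9 : a ≤ ε * (ε * r - a) := by nlinarith
      nlinarith
    · by_cases h4 : S * r < dist y c
      · have h5 : S * r - 2 * r ≤ dist x y := by
          have := dist_triangle y x c
          rw [dist_comm y x] at this
          linarith
        have hHy : H y = 0 := hHz y (Or.inr (by nlinarith))
        have h6 : (G x + H x) - (G y + H y) = (G x - G y) + H x := by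
          rw [hHy]; abel
        rw [h6]
        have h7 := norm_add_le (G x - G y) (H x)
        have h8 := hGL x y
        have h9 := hHn x
        have h10 : 1 ≤ ε * (S - 2) := by
          have : 4 ≤ S * ε := by nlinarith
          nlinarith
        have h11 : r ≤ ε * (S * r - 2 * r) := by nlinarith
        nlinarith
      · have hGy : G y = 0 := hGz y (not_lt.1 h3) (not_lt.1 h4)
        rw [hGx, hGy, zero_add, zero_add]
        have := hHL x y
        nlinarith
  have key2 : ∀ x y, ‖(G x + H x) - (G y + H y)‖ ≤ (1 + 2 * ε) * dist x y := by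
    intro x y
    by_cases hx : ε * r < dist x c ∧ dist x c < 2 * r
    · exact key x y hx.1 hx.2
    by_cases hy : ε * r < dist y c ∧ dist y c < 2 * r
    · rw [norm_sub_rev, dist_comm]
      exact key y x hy.1 hy.2
    have hHx : H x = 0 := hHz x (by
      by_contra h
      push Not at h
      exact hx h)
    have hHy : H y = 0 := hHz y (by
      by_contra h
      push Not at h
      exact hy h)
    rw [hHx, hHy, add_zero, add_zero]
    have h1 := hGL x y
    have hd := dist_nonneg (x := x) (y := y)
    nlinarith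
  have hF : ∀ x, f x + (-(χ (dist x c) • (f x - f c)) + H x) = f c + (G x + H x) := by
    intro x
    simp only [hG]
    module
  refine ⟨fun x => -(χ (dist x c) • (f x - f c)) + H x, ?_, ?_, ?_⟩
  · intro x hx
    have h1 : r / R ≤ a := div_le_div_of_nonneg_left hr0.le hS0 hSR
    have h2 : H x = 0 := hHz x (by
      rcases hx with h | h
      · left; linarith
      · right; nlinarith)
    simp only [hχ0 _ hx, h2]
    simp
  · intro x y
    simp only [hF]
    rw [add_sub_add_left_eq_sub]
    exact key2 x y
  · simp only [hF]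
    rw [add_sub_add_left_eq_sub]
    have h1 : G u = 0 := hGz u (by rw [← hr]; nlinarith) (by rw [← hr]; nlinarith)
    have h2 : G c = 0 := by simp [hG]
    have h3 : H c = 0 := hHz c (Or.inl (by rw [dist_self]; positivity))
    have h4 : H u = ((1 - ε) * r) • e := by
      simp only [hH, hθ, ← hr]
      rw [sub_self, abs_zero, sub_zero, max_eq_right (by nlinarith)]
    rw [h1, h2, h3, h4]
    simp

end Pool.Agent.Lib.MP_6460d9_an
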