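import Pool.Agent.Lib.MP_6460d9_an.Defs
import Pool.Agent.Lib.MP_6460d9_an.Perturb
import Pool.Agent.Lib.MP_6460d9_an.Annuli

namespace Pool.Agent.Lib.MP_6460d9_an

variable {M : Type*} [MetricSpace M] {p : M} {Y : Type*} [NormedAddCommGroup Y]
  [NormedSpace ℝ Y]

/-- Evaluation differences. -/
def evd (p : M) (x y : M) : Lip0 p Y →ₗ[ℝ] Y where
  toFun f := f.1 x - f.1 y
  map_add' f g := by
    change (f.1 x + g.1 x) - (f.1 y + g.1 y) = _
    abel
  map_smul' c f := by
    change c • f.1 x - c • f.1 y = _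
    rw [← smul_sub]
    rfl

theorem norm_evd_le (f : Lip0 p Y) (x y : M) : ‖evd p x y f‖ ≤ ‖f‖ * dist x y :=
  le_lipNorm f x y

theorem norm_le_of_evd {f : Lip0 p Y} {K : ℝ} (hK : 0 ≤ K)
    (h : ∀ x y, ‖evd p x y f‖ ≤ K * dist x y) : ‖f‖ ≤ K :=
  lipNorm_le hK h

theorem exists_ofLip (p : M) (g : M → Y) {K : ℝ} (hK : 0 ≤ K)
    (h : ∀ x y, ‖g x - g y‖ ≤ K * dist x y) :
    ∃ G : Lip0 p Y, ∀ x y, evd p x y G = g x - g y := by
  refine ⟨⟨fun x => g x - g p, by simp, ⟨K, hK⟩, LipschitzWith.of_dist_le_mul fun x y => ?_⟩,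
    fun x y => ?_⟩
  · rw [dist_eq_norm, sub_sub_sub_cancel_right]
    exact h x y
  · change (g x - g p) - (g y - g p) = _
    abel

theorem sum_abs_le (N : ℕ) (A : ℕ → M → Prop) (P : ℕ → M → Y) (Q : ℕ → Lip0 p Y)
    (hQ : ∀ k, k < N → ∀ x y, evd p x y (Q k) = P k x - P k y)
    (hQn : ∀ k, k < N → ‖Q k‖ ≤ 4)
    (hA : ∀ k, k < N → ∀ x, A k x → P k x = 0)
    (hdisj : ∀ k l, k < l → l < N → ∀ x, A k x ∨ A l x)
    (φ : StrongDual ℝ (Lip0 p Y)) (hφ : ‖φ‖ = 1) :
    ∑ k ∈ Finset.range N, |φ (Q k)| ≤ 8 := by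
  classical
  set σ : ℕ → ℝ := fun k => if 0 ≤ φ (Q k) then 1 else -1 with hσ
  have hσ1 : ∀ k, |σ k| = 1 := by
    intro k
    simp only [hσ]
    split_ifs <;> simp
  have hσ2 : ∀ k, |φ (Q k)| = σ k * φ (Q k) := by
    intro k
    simp only [hσ]
    split_ifs with h
    · rw [abs_of_nonneg h, one_mul]
    · rw [abs_of_neg (not_le.1 h)]; ring
  have hcount : ∀ x, ∑ k ∈ Finset.range N, (if A k x then (0 : ℝ) else 1) ≤ 1 := by
    intro x
    have h1 : ((Finset.range N).filter (fun k => ¬ A k x)).card ≤ 1 := by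
      rw [Finset.card_le_one]
      intro k hk l hl
      rw [Finset.mem_filter, Finset.mem_range] at hk hl
      rcases lt_trichotomy k l with h | h | h
      · exact absurd (hdisj k l h hl.1 x) (by tauto)
      · exact h
      · exact absurd (hdisj l k h hk.1 x) (by tauto)
    have h2 : ∑ k ∈ Finset.range N, (if A k x then (0 : ℝ) else 1) =
        ((Finset.range N).filter (fun k => ¬ A k x)).card := by
      rw [Finset.card_filter]
      push_cast
      refine Finset.sum_congr rfl fun k _ => ?_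
      by_cases h : A k x <;> simp [h]
    rw [h2]
    exact_mod_cast h1
  have hnorm : ‖∑ k ∈ Finset.range N, σ k • Q k‖ ≤ 8 := by
    refine norm_le_of_evd (by norm_num) fun x y => ?_
    rw [map_sum]
    refine (norm_sum_le _ _).trans ?_
    have hd := dist_nonneg (x := x) (y := y)
    have h1 : ∀ k ∈ Finset.range N, ‖evd p x y (σ k • Q k)‖ ≤
        4 * dist x y * ((if A k x then (0 : ℝ) else 1) + (if A k y then (0 : ℝ) else 1)) := by
      intro k hk
      rw [Finset.mem_range] at hk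
      rw [map_smul, norm_smul, Real.norm_eq_abs, hσ1, one_mul]
      have h2 : ‖evd p x y (Q k)‖ ≤ 4 * dist x y :=
        (norm_evd_le _ _ _).trans (mul_le_mul_of_nonneg_right (hQn k hk) hd)
      by_cases hx : A k x <;> by_cases hy : A k y
      · rw [hQ k hk, hA k hk x hx, hA k hk y hy]
        simp [hx, hy]
      · simp only [hx, hy, if_true, if_false]; linarith
      · simp only [hx, hy, if_true, if_false]; linarith
      · simp only [hx, hy, if_false]; linarith
    refine (Finset.sum_le_sum h1).trans ?_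
    rw [← Finset.mul_sum, Finset.sum_add_distrib]
    have h3 := hcount x
    have h4 := hcount y
    nlinarith
  calc ∑ k ∈ Finset.range N, |φ (Q k)| = φ (∑ k ∈ Finset.range N, σ k • Q k) := by
        rw [map_sum]
        refine Finset.sum_congr rfl fun k _ => ?_
        rw [hσ2, map_smul, smul_eq_mul]
    _ ≤ ‖φ‖ * ‖∑ k ∈ Finset.range N, σ k • Q k‖ := (le_abs_self _).trans (φ.le_opNorm _)
    _ ≤ 8 := by rw [hφ, one_mul]; exact hnorm

theorem exists_mem_slice {Z : Type*} [NormedAddCommGroup Z] [NormedSpace ℝ Z]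
    (φ : StrongDual ℝ Z) (hφ : ‖φ‖ = 1) {α : ℝ} (hα : 0 < α) :
    ∃ z : Z, ‖z‖ ≤ 1 ∧ 1 - α < φ z := by
  obtain ⟨z, hz, hz2⟩ := φ.exists_lt_apply_of_lt_opNorm (r := 1 - α) (by linarith)
  rw [Real.norm_eq_abs] at hz2
  rcases le_total 0 (φ z) with h | h
  · exact ⟨z, hz.le, by rwa [abs_of_nonneg h] at hz2⟩
  · exact ⟨-z, by rw [norm_neg]; exact hz.le, by rw [map_neg]; rwa [abs_of_nonpos h] at hz2⟩

theorem key (hM : ∀ R : ℝ, 1 ≤ R → ∀ N, HasAnnuli M R N) {n : ℕ}
    (φ : Fin n → StrongDual ℝ (Lip0 p Y)) (hφ : ∀ i, ‖φ i‖ = 1) (f : Fin n → Lip0 p Y)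
    (hf : ∀ i, ‖f i‖ ≤ 1) (e : Y) (he : ‖e‖ ≤ 1) {ε : ℝ} (hε : 0 < ε) (hε1 : ε ≤ 1) :
    ∃ (c u : M) (g : Bool → Fin n → Lip0 p Y), u ≠ c ∧
      (∀ b i, ‖f i + g b i‖ ≤ 1 + 2 * ε) ∧ (∀ b i, |φ i (g b i)| ≤ ε) ∧
      (∀ b i, evd p u c (f i + g b i) = ((1 - ε) * dist u c) • (if b then e else -e)) := by
  classical
  obtain ⟨R, hR, hP⟩ := exists_perturb (M := M) (Y := Y) hε hε1
  obtain ⟨N, hN⟩ := exists_nat_gt (16 * n / ε)
  obtain ⟨c, u, hcu, hdisj⟩ := hM R hR N
  have hf' : ∀ i x y, ‖(f i).1 x - (f i).1 y‖ ≤ dist x y := fun i x y =>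
    (norm_evd_le (f i) x y).trans (by
      have := dist_nonneg (x := x) (y := y)
      have := hf i
      nlinarith)
  have hall : ∀ (k : ℕ) (b : Bool) (i : Fin n), ∃ (P : M → Y) (Q : Lip0 p Y), k < N →
      (∀ x y, evd p x y Q = P x - P y) ∧ ‖Q‖ ≤ 4 ∧
      (∀ x, (dist x (c k) ≤ dist (u k) (c k) / R ∨ R * dist (u k) (c k) ≤ dist x (c k)) →
        P x = 0) ∧ ‖f i + Q‖ ≤ 1 + 2 * ε ∧
      evd p (u k) (c k) (f i + Q) = ((1 - ε) * dist (u k) (c k)) • (if b then e else -e) := by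
    intro k b i
    by_cases hk : k < N
    · obtain ⟨P, h1, h2, h3⟩ := hP (c k) (u k) (hcu k hk) (if b then e else -e)
        (by split_ifs <;> simpa using he) (f i).1 (hf' i)
      have h4 : ∀ x y, ‖P x - P y‖ ≤ 4 * dist x y := by
        intro x y
        have h5 : P x - P y = (((f i).1 x + P x) - ((f i).1 y + P y)) -
            ((f i).1 x - (f i).1 y) := by abel
        rw [h5]
        refine (norm_sub_le _ _).trans ?_
        have h6 := h2 x y
        have h7 := hf' i x y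
        have := dist_nonneg (x := x) (y := y)
        nlinarith
      obtain ⟨Q, hQ⟩ := exists_ofLip p P (by norm_num) h4
      have h6 : ∀ x y, evd p x y (f i + Q) = ((f i).1 x + P x) - ((f i).1 y + P y) := by
        intro x y
        rw [map_add, hQ]
        change ((f i).1 x - (f i).1 y) + _ = _
        abel
      refine ⟨P, Q, fun _ => ⟨hQ, norm_le_of_evd (by norm_num) fun x y => ?_, h1,
        norm_le_of_evd (by positivity) fun x y => ?_, ?_⟩⟩
      · rw [hQ]; exact h4 x y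
      · rw [h6]; exact h2 x y
      · rw [h6]; exact h3
    · exact ⟨0, 0, fun h => absurd h hk⟩
  choose P Q hPQ using hall
  have hsum : ∀ b i, ∑ k ∈ Finset.range N, |φ i (Q k b i)| ≤ 8 := fun b i =>
    sum_abs_le N (fun k x => dist x (c k) ≤ dist (u k) (c k) / R ∨
      R * dist (u k) (c k) ≤ dist x (c k)) (fun k => P k b i) (fun k => Q k b i)
      (fun k hk => (hPQ k b i hk).1) (fun k hk => (hPQ k b i hk).2.1)
      (fun k hk => (hPQ k b i hk).2.2.1) hdisj (φ i) (hφ i)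
  have htot : ∑ k ∈ Finset.range N, ∑ bi : Bool × Fin n, |φ bi.2 (Q k bi.1 bi.2)| ≤ 16 * n := by
    rw [Finset.sum_comm]
    refine (Finset.sum_le_sum fun bi _ => hsum bi.1 bi.2).trans ?_
    simp
    linarith
  have hex : ∃ k ∈ Finset.range N, ∑ bi : Bool × Fin n, |φ bi.2 (Q k bi.1 bi.2)| ≤ ε := by
    by_contra hc
    push Not at hc
    have h1 : ∑ _k ∈ Finset.range N, ε ≤
        ∑ k ∈ Finset.range N, ∑ bi : Bool × Fin n, |φ bi.2 (Q k bi.1 bi.2)| :=
      Finset.sum_le_sum fun k hk => (hc k hk).le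
    rw [Finset.sum_const, Finset.card_range, nsmul_eq_mul] at h1
    rw [div_lt_iff₀ hε] at hN
    linarith
  obtain ⟨k, hk, hk2⟩ := hex
  rw [Finset.mem_range] at hk
  refine ⟨c k, u k, Q k, hcu k hk, fun b i => (hPQ k b i hk).2.2.2.1, fun b i => ?_,
    fun b i => (hPQ k b i hk).2.2.2.2⟩
  exact (Finset.single_le_sum (f := fun bi : Bool × Fin n => |φ bi.2 (Q k bi.1 bi.2)|)
    (fun _ _ => abs_nonneg _) (Finset.mem_univ (b, i))).trans hk2

theorem sd2p_of_annuli (hM : ∀ R : ℝ, 1 ≤ R → ∀ N, HasAnnuli M R N) : SD2P (Lip0 p Y) := by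
  intro n lam φ α hlam hsum hφ hα
  set T := {z : Lip0 p Y | ∃ s : Fin n → Lip0 p Y, (∀ i, s i ∈ slice (φ i) (α i)) ∧
      z = ∑ i, lam i • s i} with hT
  have hsub : T ⊆ Metric.closedBall 0 1 := by
    rintro z ⟨s, hs, rfl⟩
    rw [mem_closedBall_zero_iff]
    refine (norm_sum_le _ _).trans ?_
    rw [← hsum]
    refine Finset.sum_le_sum fun i _ => ?_
    rw [norm_smul, Real.norm_eq_abs, abs_of_pos (hlam i)]
    have := (hs i).1
    have := hlam i
    nlinarith
  have hbdd : Bornology.IsBounded T := Metric.isBounded_closedBall.subset hsub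
  have hn : Nonempty (Fin n) := by
    by_contra hc
    rw [not_nonempty_iff] at hc
    simp at hsum
  obtain ⟨i0⟩ := hn
  obtain ⟨e, he⟩ : ∃ e : Y, ‖e‖ = 1 := by
    obtain ⟨z, _, hz⟩ := exists_mem_slice (φ i0) (hφ i0) one_pos
    have hz0 : z ≠ 0 := by
      rintro rfl
      simp at hz
    have : ∃ x, z.1 x ≠ 0 := by
      by_contra hc
      push Not at hc
      exact hz0 (Subtype.ext (funext hc))
    obtain ⟨x, hx⟩ := this
    exact ⟨‖z.1 x‖⁻¹ • z.1 x, norm_smul_inv_norm hx⟩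
  choose f hf hf2 using fun i => exists_mem_slice (φ i) (hφ i) (half_pos (hα i))
  obtain ⟨i1, -, hi1⟩ := Finset.exists_min_image Finset.univ α ⟨i0, Finset.mem_univ _⟩
  refine le_antisymm ?_ ?_
  · have := Metric.diam_le_of_subset_closedBall zero_le_one hsub
    linarith
  refine le_of_forall_pos_le_add fun δ hδ => ?_
  set ε := min 1 (min (α i1 / 8) (δ / 6)) with hεdef
  have hε : 0 < ε := lt_min one_pos (lt_min (by have := hα i1; positivity) (by positivity))
  have hε1 : ε ≤ 1 := min_le_left _ _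
  have hεα : ∀ i, ε ≤ α i / 8 := fun i =>
    ((min_le_right _ _).trans (min_le_left _ _)).trans (by
      have := hi1 i (Finset.mem_univ _)
      linarith)
  have hεδ : ε ≤ δ / 6 := (min_le_right _ _).trans (min_le_right _ _)
  obtain ⟨c, u, g, hcu, hg1, hg2, hg3⟩ := key hM φ hφ f hf e he.le hε hε1
  have hκ : 0 < 1 + 2 * ε := by linarith
  set κ := (1 + 2 * ε)⁻¹ with hκdef
  have hκ0 : 0 < κ := inv_pos.2 hκ
  have hκ1 : κ * (1 + 2 * ε) = 1 := inv_mul_cancel₀ hκ.ne'
  have hmem : ∀ b, (∑ i, lam i • (κ • (f i + g b i))) ∈ T := by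
    intro b
    refine ⟨fun i => κ • (f i + g b i), fun i => ⟨?_, ?_⟩, rfl⟩
    · rw [norm_smul, Real.norm_eq_abs, abs_of_pos hκ0]
      have := hg1 b i
      nlinarith
    · rw [map_smul, map_add, smul_eq_mul]
      have h1 := hf2 i
      have h2 := (abs_le.1 (hg2 b i)).1
      have h3 := hεα i
      have h4 := hα i
      have h5 : (1 - α i) * (1 + 2 * ε) < φ i (f i) + φ i (g b i) := by nlinarith
      calc 1 - α i = κ * ((1 - α i) * (1 + 2 * ε)) := by
            rw [mul_comm (1 - α i), ← mul_assoc, hκ1, one_mul]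
        _ < _ := mul_lt_mul_of_pos_left h5 hκ0
  have hev : ∀ b, evd p u c (∑ i, lam i • (κ • (f i + g b i))) =
      (κ * ((1 - ε) * dist u c)) • (if b then e else -e) := by
    intro b
    rw [map_sum]
    simp only [map_smul, hg3]
    rw [← Finset.sum_smul, hsum, one_smul, smul_smul]
  have hd : 0 < dist u c := dist_pos.2 hcu
  have h1 := Metric.dist_le_diam_of_mem hbdd (hmem true) (hmem false)
  rw [dist_eq_norm] at h1
  have h2 := norm_evd_le ((∑ i, lam i • (κ • (f i + g true i))) -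
    (∑ i, lam i • (κ • (f i + g false i)))) u c
  rw [map_sub, hev, hev] at h2
  simp only [if_true, Bool.false_eq_true, if_false, smul_neg, sub_neg_eq_add] at h2
  rw [← add_smul, norm_smul, he, mul_one, Real.norm_eq_abs,
    abs_of_nonneg (by have : 0 ≤ 1 - ε := by linarith
                      positivity)] at h2
  have h3 : 2 * (κ * (1 - ε)) ≤ Metric.diam T := by
    have h4 : 2 * (κ * (1 - ε)) * dist u c ≤ Metric.diam T * dist u c := by
      have := mul_le_mul_of_nonneg_right h1 hd.le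
      nlinarith
    exact le_of_mul_le_mul_right h4 hd
  have h5 : 1 - 3 * ε ≤ κ * (1 - ε) := by
    have h6 : (1 - 3 * ε) * (1 + 2 * ε) ≤ 1 - ε := by nlinarith
    calc 1 - 3 * ε = κ * ((1 - 3 * ε) * (1 + 2 * ε)) := by
          rw [mul_comm (1 - 3 * ε), ← mul_assoc, hκ1, one_mul]
      _ ≤ _ := mul_le_mul_of_nonneg_left h6 hκ0.le
  linarith

end Pool.Agent.Lib.MP_6460d9_an
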